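import Pool.Agent.IIC.F4

set_option autoImplicit false

/-!
# The incipient infinite cluster of a nonamenable Cayley graph has density zero

`Γ` is a group, `S` a finite symmetric generating set, `cay S` the Cayley graph.  Bond percolation
is the product measure `bP Γ p` on `Cfg Γ = (Sym2 Γ → Bool)` (only the bits at Cayley edges matter),
`pc S` the critical parameter, `clus S ω 1` the open cluster of the identity.  A subgraph is given
by the indicator functions of its vertex set and its edge set, `SubG Γ = (Γ → Bool) × (Sym2 Γ → Bool)`,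
with the product topology.
-/

namespace Pool.Agent.Results.MP_eba14c_pr.ZeroDensity

open MeasureTheory ProbabilityTheory Filter Pool.Agent.IIC
open scoped ENNReal NNReal Topology BoundedContinuousFunction

variable {Γ : Type} [Group Γ]

/-- The event that the open cluster of `1` reaches the sphere of radius `n` about `1`. -/
def reach (S : Finset Γ) (n : ℕ) : Set (Cfg Γ) :=
  {ω | ∃ y ∈ clus S ω 1, (cay S).dist 1 y = n}

/-- The law of the rerooted conditioned cluster: condition critical percolation on `reach S n`,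
choose `ρ` uniformly in the cluster of `1`, and translate the cluster by `ρ⁻¹`. -/
noncomputable def rerootedLaw (S : Finset Γ) (n : ℕ) : Measure (SubG Γ) :=
  letI : MeasurableSpace Γ := ⊤
  (cond (bP Γ (pc S) (pc_le_one S)) (reach S n)).bind
    (fun ω => (uniformOn (clus S ω 1)).map (fun ρ => reroot S ρ ω))

/-- `ν` is (the law of) an incipient infinite cluster: a subsequential weak limit of the laws of
the rerooted conditioned clusters. -/
def IsIIC (S : Finset Γ) (ν : Measure (SubG Γ)) : Prop :=
  IsProbabilityMeasure ν ∧ ∃ φ : ℕ → ℕ, StrictMono φ ∧ ∀ f : SubG Γ →ᵇ ℝ,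
    Tendsto (fun i => ∫ x, f x ∂(rerootedLaw S (φ i))) atTop (𝓝 (∫ x, f x ∂ν))

theorem rerootedLaw_eq [Countable Γ] (S : Finset Γ) (n : ℕ) :
    rerootedLaw S n = law S (pc S) (pc_le_one S) n :=
  bind_eq_law S (pc S) (pc_le_one S) n

/-- Sanity check: on a nonamenable Cayley graph the rerooted laws are probability measures. -/
theorem rerootedLaw_prob (S : Finset Γ) (hsymm : ∀ s ∈ S, s⁻¹ ∈ S)
    (hgen : Subgroup.closure (S : Set Γ) = ⊤) (hna : Nonamenable S) (n : ℕ) :
    IsProbabilityMeasure (rerootedLaw S n) := by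
  have : Countable Γ := countable_of_gen hgen
  have : Infinite Γ := infinite_of_nonam hna
  obtain ⟨hfin, hp0, hp1⟩ := theta_pc (S := S) hsymm hgen hna
  refine ⟨?_⟩
  rw [rerootedLaw_eq]
  exact law_univ hsymm hgen _ _ hp0 hfin n

/-- On every nonamenable Cayley graph, every incipient infinite cluster has density zero:
`P(v ∈ IIC) → 0` as `d(v, 1) → ∞`. -/
theorem result (S : Finset Γ) (hsymm : ∀ s ∈ S, s⁻¹ ∈ S)
    (hgen : Subgroup.closure (S : Set Γ) = ⊤) (hna : Nonamenable S)
    (ν : Measure (SubG Γ)) (hν : IsIIC S ν) :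
    ∀ ε : ℝ≥0∞, 0 < ε → ∃ R₀ : ℕ, ∀ v : Γ, R₀ ≤ (cay S).dist 1 v →
      ν {x : SubG Γ | x.1 v = true} ≤ ε := by
  have : Countable Γ := countable_of_gen hgen
  obtain ⟨hprob, φ, hφ, hlim⟩ := hν
  intro ε hε
  simp only [rerootedLaw_eq] at hlim
  obtain ⟨δ, hδ0, hδ⟩ := ENNReal.lt_iff_exists_real_btwn.1 hε
  have hδ1 : 0 < δ := by
    have := hδ.1
    simpa using this
  obtain ⟨R0, hR0⟩ := limit_small hsymm hgen hna ν φ hφ hlim δ hδ1
  exact ⟨R0, fun v hv => (hR0 v hv).trans hδ.2.le⟩

end Pool.Agent.Results.MP_eba14c_pr.ZeroDensity
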